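import Pool.Agent.U916.GN.Brg

/-!
# MP_d0fd9b_nt: in `ℚ(√p)` the algebraic integers of small norm are large

For all but `H x ^ (-1 / (1000 A ^ 2))` of the primes `p` in `(x, x + H]` every element of the ring
of integers of `ℚ(√p)`, not in `ℤ`, whose norm is at most `x ^ (1 / (1000 A ^ 2))` in absolute value
(units, generators of principal ideals of small norm) has a conjugate larger than `x ^ A`.
-/

set_option autoImplicit false

namespace Pool.Agent.Results.MP_d0fd9b_nt.LargeGenerators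

open NumberField

/-- In the quadratic field `ℚ(√d)` every algebraic integer that is not a rational integer and whose
norm is at most `B` in absolute value has a conjugate larger than `S`. -/
def Large (d : ℕ) (B S : ℝ) : Prop :=
  ∀ (K : Type) [Field K] [NumberField K], Module.finrank ℚ K = 2 → (∃ s : K, s ^ 2 = (d : K)) →
    ∀ β : 𝓞 K, (∀ n : ℤ, β ≠ n) → |((Algebra.norm ℤ β : ℤ) : ℝ)| ≤ B →
      ∃ φ : K →+* ℂ, S < ‖φ β‖

/-- The same for the algebraic integers whose norm is not the square of an integer. -/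
def LargeNS (d : ℕ) (B S : ℝ) : Prop :=
  ∀ (K : Type) [Field K] [NumberField K], Module.finrank ℚ K = 2 → (∃ s : K, s ^ 2 = (d : K)) →
    ∀ β : 𝓞 K, (∀ n : ℤ, β ≠ n) → ¬ IsSquare (Algebra.norm ℤ β) →
      |((Algebra.norm ℤ β : ℤ) : ℝ)| ≤ B → ∃ φ : K →+* ℂ, S < ‖φ β‖

/-- All but `H / x ^ (1 / (1000 A ^ 2))` of the primes `p` and of the squarefree integers `d` in
`(x, x + H]`, `x ^ (1 / (60 A ^ 2)) ≤ H ≤ x`. -/
theorem result : ∃ x₀ : ℝ, ∀ x A H : ℝ, x₀ ≤ x → 1 ≤ A →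
    A ^ 2 * Real.log (Real.log x) ≤ Real.log x / 10 ^ 4 → x ^ (1 / (60 * A ^ 2)) ≤ H → H ≤ x →
    -- primes
    (({p : ℕ | p.Prime ∧ x < p ∧ (p : ℝ) ≤ x + H ∧
      ¬ Large p (x ^ (1 / (1000 * A ^ 2))) (x ^ A)}.ncard : ℝ) ≤ H / x ^ (1 / (1000 * A ^ 2))) ∧
    -- squarefree integers
    (({d : ℕ | Squarefree d ∧ x < d ∧ (d : ℝ) ≤ x + H ∧
      ¬ LargeNS d (x ^ (1 / (1000 * A ^ 2))) (x ^ A)}.ncard : ℝ) ≤
      H / x ^ (1 / (1000 * A ^ 2))) := by
  obtain ⟨x₀, hx₀⟩ := U916.GN.num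
  refine ⟨max x₀ 4, ?_⟩
  intro x A H hx hA hAl hH1 hH2
  have hx4 : 4 ≤ x := (le_max_right _ _).trans hx
  have main := hx₀ x A H ((le_max_left _ _).trans hx) hA hAl hH1 hH2
  have hx0 : 0 < x := by linarith
  have hSpos : 0 ≤ x ^ A := Real.rpow_nonneg hx0.le _
  -- transfer
  have tr : ∀ s : Set ℕ, (∀ d ∈ s, x < (d : ℝ) ∧ (d : ℝ) ≤ x + H ∧
      U916.GN.Exc (d : ℤ) (4 * x ^ (1 / (1000 * A ^ 2))) (x ^ A)) →
      (s.ncard : ℝ) ≤ H / x ^ (1 / (1000 * A ^ 2)) := by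
    intro s hs
    refine le_trans ?_ main
    have hfin : {d : ℤ | x < d ∧ (d : ℝ) ≤ x + H ∧
        U916.GN.Exc d (4 * x ^ (1 / (1000 * A ^ 2))) (x ^ A)}.Finite := by
      refine (Set.finite_Icc ⌈x⌉ ⌊x + H⌋).subset ?_
      rintro d ⟨h1, h2, -⟩
      exact ⟨Int.ceil_le.2 h1.le, Int.le_floor.2 h2⟩
    have : s.ncard = ((fun n : ℕ => (n : ℤ)) '' s).ncard :=
      (Set.ncard_image_of_injective s Nat.cast_injective).symm
    rw [this]
    have h3 : ((fun n : ℕ => (n : ℤ)) '' s) ⊆ {d : ℤ | x < d ∧ (d : ℝ) ≤ x + H ∧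
        U916.GN.Exc d (4 * x ^ (1 / (1000 * A ^ 2))) (x ^ A)} := by
      rintro _ ⟨n, hn, rfl⟩
      obtain ⟨h4, h5, h6⟩ := hs n hn
      exact ⟨by simpa using h4, by simpa using h5, h6⟩
    exact_mod_cast Set.ncard_le_ncard h3 hfin
  constructor
  · apply tr
    rintro p ⟨hp, h1, h2, h3⟩
    refine ⟨h1, h2, ?_⟩
    have hp4 : 4 ≤ p := by
      have : (4 : ℝ) < p := by linarith
      exact_mod_cast this.le
    by_contra hne
    apply h3
    intro K _ _ hK hs β hβ hB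
    by_contra hc
    push Not at hc
    exact hne (U916.GN.exc_prime hp4 hp hK hs hSpos β hβ hc hB)
  · apply tr
    rintro d ⟨hd, h1, h2, h3⟩
    refine ⟨h1, h2, ?_⟩
    have hd4 : 4 ≤ d := by
      have : (4 : ℝ) < d := by linarith
      exact_mod_cast this.le
    by_contra hne
    apply h3
    intro K _ _ hK hs β hβ hN hB
    by_contra hc
    push Not at hc
    exact hne (U916.GN.exc_nsq hd4 hd hK hs hSpos β hβ hc hN hB)

end Pool.Agent.Results.MP_d0fd9b_nt.LargeGenerators
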