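import Pool.Agent.U331.FS.C
import Pool.Agent.Results.MP_d0fd9b_nt.LargeGenerators

/-!
# Real quadratic fields: large generators for ALL `d` near the integral combinations of an infinite sequence

Let `A ≥ 1` and `κ = 1 / (4000 A²)`. We show that EVERY set `B` of natural numbers with at least `c N ^ β` elements up to `N` for all large
`N`, where `β > 1 - κ`, contains the terms of an infinite sequence `a_n ≤ K ^ (n + 1)` with the following property. For ALL nonzero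
integral vectors `u` with finite support and entries of absolute value at most `H` and for `v = |∑ uᵢ aᵢ|`: for ALL primes `p` with
`|p - v| ≤ v ^ κ` every algebraic integer of `ℚ(√p)`, not in `ℤ`, whose norm is at most `p ^ (1 / (2000 A²))` in absolute value (units,
all generators of principal ideals of so small norm) has a conjugate larger than `p ^ A`, and for ALL squarefree `d` with
`|d - v| ≤ v ^ κ` the same holds for the integers of `ℚ(√d)` whose norm is not a square. There is no exception among the infinitely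
many combinations.

Proof: a greedy choice. At the step `n` there are at most `(2 H + 1) ^ (n + 1)` conditions for the new term, each of them excludes at
most twice as many integers as there are integers near the exceptions of the starting result `LargeGenerators`, and this number is
smaller than the number of the elements of `B` by a power (`Pool.Agent.U331.FS`).
-/

set_option autoImplicit false

namespace Pool.Agent.Results.MP_d0fd9b_nt.AllCombinations

open Filter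
open Pool.Agent.U331.FS (AllSums all_sums_good)
open Pool.Agent.Results.MP_d0fd9b_nt.LargeGenerators (Large LargeNS)

/-- `p ^ (1 / (2000 A²))` and `p ^ A` for primes (`Large`), `d ^ (1 / (2000 A²))` and `d ^ A` for squarefree `d` (`LargeNS`) -/
def Good (A : ℝ) (d : ℕ) : Prop :=
  (d.Prime → Large d ((d : ℝ) ^ (1 / (2000 * A ^ 2))) ((d : ℝ) ^ A)) ∧
  (Squarefree d → LargeNS d ((d : ℝ) ^ (1 / (2000 * A ^ 2))) ((d : ℝ) ^ A))

/-- ALL positive integers `d` with `|d - v| ≤ W` are good. -/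
def Near (A W v : ℝ) : Prop := ∀ d : ℕ, 1 ≤ d → |(d : ℝ) - v| ≤ W → Good A d

/-- from dyadic intervals to all integers up to `X` -/
lemma dyadic (Bad : ℕ → Prop) {s C : ℝ} (hs : 0 < s) (x₀ : ℝ)
    (h : ∀ x : ℝ, x₀ ≤ x → ({d : ℕ | x < d ∧ (d : ℝ) ≤ x + x ∧ Bad d}.ncard : ℝ) ≤ C * x ^ s) :
    ∃ K : ℝ, ∀ X : ℕ, 1 ≤ X → ({n : ℕ | 1 ≤ n ∧ n ≤ X ∧ Bad n}.ncard : ℝ) ≤ K * (X : ℝ) ^ s := by
  have h2s : 1 < (2 : ℝ) ^ s := Real.one_lt_rpow (by norm_num) hs
  have h2s' : 0 < (2 : ℝ) ^ s - 1 := by linarith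
  set K : ℝ := max (max 1 (2 * x₀)) (C / ((2 : ℝ) ^ s - 1)) with hK
  have hK1 : 1 ≤ K := (le_max_left _ _).trans (le_max_left _ _)
  have hK2 : 2 * x₀ ≤ K := (le_max_right _ _).trans (le_max_left _ _)
  have hK3 : C ≤ K * ((2 : ℝ) ^ s - 1) := by
    have h1 : C / ((2 : ℝ) ^ s - 1) ≤ K := le_max_right _ _
    rwa [div_le_iff₀ h2s'] at h1
  have fin : ∀ X : ℕ, {n : ℕ | 1 ≤ n ∧ n ≤ X ∧ Bad n}.Finite := fun X =>
    (Set.finite_Icc 1 X).subset fun n hn => ⟨hn.1, hn.2.1⟩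
  refine ⟨K, fun X => ?_⟩
  induction X using Nat.strong_induction_on with
  | _ X ih =>
    intro hX
    have hXr : (1 : ℝ) ≤ X := by exact_mod_cast hX
    have hXs : 1 ≤ (X : ℝ) ^ s := Real.one_le_rpow hXr hs.le
    have triv : ({n : ℕ | 1 ≤ n ∧ n ≤ X ∧ Bad n}.ncard : ℝ) ≤ X := by
      have h1 : {n : ℕ | 1 ≤ n ∧ n ≤ X ∧ Bad n}.ncard ≤ (Set.Icc 1 X).ncard :=
        Set.ncard_le_ncard (fun n hn => ⟨hn.1, hn.2.1⟩) (Set.finite_Icc 1 X)
      rw [← Finset.coe_Icc, Set.ncard_coe_finset, Nat.card_Icc, Nat.add_sub_cancel] at h1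
      exact_mod_cast h1
    rcases lt_or_ge (X : ℝ) (2 * x₀) with hlt | hge
    · calc ({n : ℕ | 1 ≤ n ∧ n ≤ X ∧ Bad n}.ncard : ℝ) ≤ X := triv
        _ ≤ K := by linarith
        _ ≤ K * (X : ℝ) ^ s := le_mul_of_one_le_right (by linarith) hXs
    · rcases Nat.lt_or_ge X 2 with h2 | h2
      · have : X = 1 := by omega
        calc ({n : ℕ | 1 ≤ n ∧ n ≤ X ∧ Bad n}.ncard : ℝ) ≤ X := triv
          _ = 1 := by rw [this]; norm_num
          _ ≤ K * (X : ℝ) ^ s := by nlinarith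
      · have h3 := ih (X / 2) (by omega) (by omega)
        have h4 := h ((X : ℝ) / 2) (by linarith)
        have hdiv : ((X / 2 : ℕ) : ℝ) ≤ (X : ℝ) / 2 := Nat.cast_div_le
        have h5 : (((X / 2 : ℕ) : ℝ)) ^ s ≤ ((X : ℝ) / 2) ^ s := Real.rpow_le_rpow (Nat.cast_nonneg _) hdiv hs.le
        have h6 : {n : ℕ | 1 ≤ n ∧ n ≤ X ∧ Bad n} ⊆ {n : ℕ | 1 ≤ n ∧ n ≤ X / 2 ∧ Bad n} ∪
            {d : ℕ | (X : ℝ) / 2 < d ∧ (d : ℝ) ≤ (X : ℝ) / 2 + (X : ℝ) / 2 ∧ Bad d} := by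
          rintro n ⟨h7, h8, h9⟩
          rcases Nat.lt_or_ge (X / 2) n with h10 | h10
          · right
            refine ⟨?_, ?_, h9⟩
            · have h11 : X < 2 * n := by omega
              have h12 : (X : ℝ) < 2 * n := by exact_mod_cast h11
              linarith
            · have h12 : (n : ℝ) ≤ X := by exact_mod_cast h8
              linarith
          · left
            exact ⟨h7, h10, h9⟩
        have fin2 : {d : ℕ | (X : ℝ) / 2 < d ∧ (d : ℝ) ≤ (X : ℝ) / 2 + (X : ℝ) / 2 ∧ Bad d}.Finite := by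
          refine (Set.finite_Icc 0 X).subset fun n hn => ⟨Nat.zero_le _, ?_⟩
          have : (n : ℝ) ≤ X := by linarith [hn.2.1]
          exact_mod_cast this
        have h7 : ({n : ℕ | 1 ≤ n ∧ n ≤ X ∧ Bad n}.ncard : ℝ) ≤ ({n : ℕ | 1 ≤ n ∧ n ≤ X / 2 ∧ Bad n}.ncard : ℝ) +
            ({d : ℕ | (X : ℝ) / 2 < d ∧ (d : ℝ) ≤ (X : ℝ) / 2 + (X : ℝ) / 2 ∧ Bad d}.ncard : ℝ) := by
          exact_mod_cast (Set.ncard_le_ncard h6 ((fin _).union fin2)).trans (Set.ncard_union_le _ _)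
        have h8 : ((X : ℝ) / 2) ^ s = (X : ℝ) ^ s / 2 ^ s := Real.div_rpow (by linarith) (by norm_num) s
        have h2s0 : (0 : ℝ) < 2 ^ s := by linarith
        calc ({n : ℕ | 1 ≤ n ∧ n ≤ X ∧ Bad n}.ncard : ℝ)
            ≤ K * (((X / 2 : ℕ) : ℝ)) ^ s + C * ((X : ℝ) / 2) ^ s := h7.trans (add_le_add h3 h4)
          _ ≤ K * ((X : ℝ) / 2) ^ s + C * ((X : ℝ) / 2) ^ s := by
              have := mul_le_mul_of_nonneg_left h5 (by linarith : 0 ≤ K)
              linarith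
          _ = (K + C) * ((X : ℝ) ^ s / 2 ^ s) := by rw [h8]; ring
          _ ≤ (K * 2 ^ s) * ((X : ℝ) ^ s / 2 ^ s) := by
              refine mul_le_mul_of_nonneg_right ?_ (by positivity)
              linarith
          _ = K * (X : ℝ) ^ s := by
              field_simp

/-- `Large` for larger bounds implies `Large` for smaller ones. -/
lemma large_mono {d : ℕ} {B B' S S' : ℝ} (hB : B' ≤ B) (hS : S' ≤ S) (h : Large d B S) : Large d B' S' := by
  intro K _ _ hK hs β hβ hN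
  obtain ⟨φ, hφ⟩ := h K hK hs β hβ (hN.trans hB)
  exact ⟨φ, hS.trans_lt hφ⟩

/-- `LargeNS` for larger bounds implies `LargeNS` for smaller ones. -/
lemma largeNS_mono {d : ℕ} {B B' S S' : ℝ} (hB : B' ≤ B) (hS : S' ≤ S) (h : LargeNS d B S) : LargeNS d B' S' := by
  intro K _ _ hK hs β hβ hsq hN
  obtain ⟨φ, hφ⟩ := h K hK hs β hβ hsq (hN.trans hB)
  exact ⟨φ, hS.trans_lt hφ⟩

/-- the number of the exceptions -/
lemma count (A : ℝ) (hA : 1 ≤ A) : ∃ K : ℝ, ∀ X : ℕ, 1 ≤ X →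
    ({n : ℕ | 1 ≤ n ∧ n ≤ X ∧ ¬ Good A n}.ncard : ℝ) ≤ K * (X : ℝ) ^ (1 - 1 / (2000 * A ^ 2)) := by
  obtain ⟨x₀, hx₀⟩ := LargeGenerators.result
  have hA2 : 1 ≤ A ^ 2 := one_le_pow₀ hA
  have hη : 1 / (2000 * A ^ 2) ≤ 1 / 2000 := by
    apply one_div_le_one_div_of_le (by norm_num)
    linarith
  -- the condition for large `x`
  have hlog : Tendsto (fun x : ℝ => Real.log (Real.log x) / Real.log x) atTop (nhds 0) := by
    have h2 := (Real.isLittleO_pow_log_id_atTop (n := 1)).tendsto_div_nhds_zero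
    simp only [pow_one, id_eq] at h2
    exact h2.comp Real.tendsto_log_atTop
  have hev : ∀ᶠ x : ℝ in atTop, Real.log (Real.log x) / Real.log x < 1 / (10 ^ 4 * (7 / 5 * A) ^ 2) :=
    hlog.eventually (gt_mem_nhds (by positivity))
  obtain ⟨x₁, hx₁⟩ := eventually_atTop.mp hev
  refine dyadic (fun n => ¬ Good A n) (C := 2) (by linarith) (max (max x₀ x₁) (2 ^ 49)) (fun x hx => ?_)
  have g1 : x₀ ≤ x := ((le_max_left _ _).trans (le_max_left _ _)).trans hx
  have g2 : x₁ ≤ x := ((le_max_right _ _).trans (le_max_left _ _)).trans hx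
  have g3 : (2 : ℝ) ^ 49 ≤ x := (le_max_right _ _).trans hx
  have hx1 : 1 ≤ x := le_trans (by norm_num) g3
  have hx0 : 0 < x := by linarith
  have hlx : 0 < Real.log x := Real.log_pos (lt_of_lt_of_le (by norm_num) g3)
  have hA1 : 1 ≤ 7 / 5 * A := by linarith
  have hcond : (7 / 5 * A) ^ 2 * Real.log (Real.log x) ≤ Real.log x / 10 ^ 4 := by
    have h1 := (hx₁ x g2).le
    rw [div_le_iff₀ hlx] at h1
    have h2 : 0 < (7 / 5 * A) ^ 2 := by positivity
    have h3 := mul_le_mul_of_nonneg_left h1 h2.le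
    refine h3.trans (le_of_eq ?_)
    field_simp
  have hH1 : x ^ (1 / (60 * (7 / 5 * A) ^ 2)) ≤ x := by
    conv_rhs => rw [← Real.rpow_one x]
    apply Real.rpow_le_rpow_of_exponent_le hx1
    rw [div_le_one (by positivity)]
    nlinarith
  obtain ⟨m1, m2⟩ := hx₀ x (7 / 5 * A) x g1 hA1 hcond hH1 le_rfl
  have e1 : 1000 * (7 / 5 * A) ^ 2 = 1960 * A ^ 2 := by ring
  rw [e1] at m1 m2
  -- the size of the bounds
  have hx2 : 2 * x ≤ x ^ (50 / 49 : ℝ) := by
    have h1 : (2 : ℝ) ≤ x ^ (1 / 49 : ℝ) := by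
      calc (2 : ℝ) = ((2 : ℝ) ^ 49) ^ (1 / 49 : ℝ) := by
            rw [← Real.rpow_natCast, ← Real.rpow_mul (by norm_num)]
            norm_num
        _ ≤ x ^ (1 / 49 : ℝ) := Real.rpow_le_rpow (by norm_num) g3 (by norm_num)
    calc 2 * x ≤ x ^ (1 / 49 : ℝ) * x := mul_le_mul_of_nonneg_right h1 hx0.le
      _ = x ^ (50 / 49 : ℝ) := by
        conv_lhs => rw [← Real.rpow_one x, ← Real.rpow_mul hx0.le, ← Real.rpow_add hx0]
        norm_num
  have hB : ∀ d : ℕ, (d : ℝ) ≤ x + x → (d : ℝ) ^ (1 / (2000 * A ^ 2)) ≤ x ^ (1 / (1960 * A ^ 2)) := by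
    intro d hd
    calc (d : ℝ) ^ (1 / (2000 * A ^ 2)) ≤ (x ^ (50 / 49 : ℝ)) ^ (1 / (2000 * A ^ 2)) :=
          Real.rpow_le_rpow (Nat.cast_nonneg _) (by linarith) (by positivity)
      _ = x ^ (1 / (1960 * A ^ 2)) := by
        rw [← Real.rpow_mul hx0.le]
        congr 1
        have : A ≠ 0 := by linarith
        field_simp
        norm_num
  have hS : ∀ d : ℕ, (d : ℝ) ≤ x + x → (d : ℝ) ^ A ≤ x ^ (7 / 5 * A) := by
    intro d hd
    calc (d : ℝ) ^ A ≤ (x ^ (50 / 49 : ℝ)) ^ A :=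
          Real.rpow_le_rpow (Nat.cast_nonneg _) (by linarith) (by linarith)
      _ = x ^ (50 / 49 * A) := by rw [← Real.rpow_mul hx0.le]
      _ ≤ x ^ (7 / 5 * A) := Real.rpow_le_rpow_of_exponent_le hx1 (by nlinarith)
  have hsub : {d : ℕ | x < d ∧ (d : ℝ) ≤ x + x ∧ ¬ Good A d} ⊆
      {p : ℕ | p.Prime ∧ x < p ∧ (p : ℝ) ≤ x + x ∧ ¬ Large p (x ^ (1 / (1960 * A ^ 2))) (x ^ (7 / 5 * A))} ∪
      {d : ℕ | Squarefree d ∧ x < d ∧ (d : ℝ) ≤ x + x ∧ ¬ LargeNS d (x ^ (1 / (1960 * A ^ 2))) (x ^ (7 / 5 * A))} := by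
    rintro d ⟨h1, h2, h3⟩
    unfold Good at h3
    rw [not_and_or, Classical.not_imp, Classical.not_imp] at h3
    rcases h3 with ⟨h4, h5⟩ | ⟨h4, h5⟩
    · left
      exact ⟨h4, h1, h2, fun h6 => h5 (large_mono (hB d h2) (hS d h2) h6)⟩
    · right
      exact ⟨h4, h1, h2, fun h6 => h5 (largeNS_mono (hB d h2) (hS d h2) h6)⟩
  have fin : ∀ P : ℕ → Prop, {d : ℕ | P d ∧ x < d ∧ (d : ℝ) ≤ x + x}.Finite := fun P =>
    (Set.finite_Icc 0 ⌊x + x⌋₊).subset fun d hd => ⟨Nat.zero_le _, Nat.le_floor hd.2.2⟩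
  have fin1 : {p : ℕ | p.Prime ∧ x < p ∧ (p : ℝ) ≤ x + x ∧
      ¬ Large p (x ^ (1 / (1960 * A ^ 2))) (x ^ (7 / 5 * A))}.Finite :=
    (fin fun p => p.Prime).subset fun d hd => ⟨hd.1, hd.2.1, hd.2.2.1⟩
  have fin2 : {d : ℕ | Squarefree d ∧ x < d ∧ (d : ℝ) ≤ x + x ∧
      ¬ LargeNS d (x ^ (1 / (1960 * A ^ 2))) (x ^ (7 / 5 * A))}.Finite :=
    (fin fun d => Squarefree d).subset fun d hd => ⟨hd.1, hd.2.1, hd.2.2.1⟩
  have h1 : ({d : ℕ | x < d ∧ (d : ℝ) ≤ x + x ∧ ¬ Good A d}.ncard : ℝ) ≤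
      x / x ^ (1 / (1960 * A ^ 2)) + x / x ^ (1 / (1960 * A ^ 2)) := by
    have h2 := (Set.ncard_le_ncard hsub (fin1.union fin2)).trans (Set.ncard_union_le _ _)
    have h3 : ({d : ℕ | x < d ∧ (d : ℝ) ≤ x + x ∧ ¬ Good A d}.ncard : ℝ) ≤ ((_ + _ : ℕ) : ℝ) := Nat.cast_le.2 h2
    rw [Nat.cast_add] at h3
    exact h3.trans (add_le_add m1 m2)
  refine h1.trans ?_
  have h2 : x / x ^ (1 / (1960 * A ^ 2)) ≤ x ^ (1 - 1 / (2000 * A ^ 2)) := by
    rw [div_le_iff₀ (by positivity), ← Real.rpow_add hx0]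
    conv_lhs => rw [← Real.rpow_one x]
    apply Real.rpow_le_rpow_of_exponent_le hx1
    have h3 : 1 / (2000 * A ^ 2) ≤ 1 / (1960 * A ^ 2) := one_div_le_one_div_of_le (by positivity) (by nlinarith)
    linarith
  linarith

/-- **Theorem.** Let `A ≥ 1`. The property `Near A` holds in windows of length `v ^ (1 / (4000 A²))` for all combinations with
bounded coefficients of an infinite sequence, growing at most exponentially, in every set with at least `c N ^ β` elements up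
to `N`, `β > 1 - 1 / (4000 A²)` (`AllSums`). -/
theorem result (A : ℝ) (hA : 1 ≤ A) : AllSums (1 - 1 / (4000 * A ^ 2)) (1 / (4000 * A ^ 2)) (Near A) := by
  obtain ⟨K, hK⟩ := count A hA
  have hA2 : 1 ≤ A ^ 2 := one_le_pow₀ hA
  have hη : 1 / (2000 * A ^ 2) ≤ 1 / 2000 := by
    apply one_div_le_one_div_of_le (by norm_num)
    linarith
  have e : 1 - 1 / (4000 * A ^ 2) = (1 - 1 / (2000 * A ^ 2)) + 1 / (4000 * A ^ 2) := by
    have : A ≠ 0 := by linarith
    field_simp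
    ring
  rw [e]
  exact (all_sums_good (Good := Good A) (by linarith) (by positivity) hK).mono (fun W x _ h d hd hw => h d hd hw)

end Pool.Agent.Results.MP_d0fd9b_nt.AllCombinations
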