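import Pool.Agent.Results.MP_d0fd9b_nt.SparseSetsOfPrimes
import Pool.Agent.U265.GM.Gen
import Pool.Agent.H170R2.PC.Primes

/-!
# The small primes of all real quadratic fields near the multiples and the powers of a real number

Let `P` be ANY set of primes that contains, for every `σ < s` and all large `y`, at least `y ^ σ` primes of the interval
`(y, 2y]` (`0 < s ≤ 1`; for example, the set of all primes, with `s = 1`). For a squarefree integer `d ≥ 2` (for example a
prime) let `K` be the field of the square root of `d` and `h` its class number. The property `Good P a e d`: the classes of the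
prime ideals of `K` whose norm is a prime number of `P` and at most `(log d)^a` generate a subgroup of index at most `d^e`
of the class group; at least `h / d^e` classes are products of at most `log d / log log d` of these classes; and `h ≤ d^e` if all
these prime ideals are principal (for example, if `h = 1`). The starting files show this for all but a few squarefree `d ≤ x`.
Here it is shown for ALL squarefree `d` (in particular for all primes) in windows `|d - w_n ξ| ≤ w_n ^ κ`, `κ < 1`, around the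
multiples of a real number `ξ` by the members of ANY sequence, for all `ξ` but a set of small Hausdorff dimension.

(1) Let the sums of the `w_n ^ (-t)` converge for `t > τ` (`τ = 1/c` for `w_n = n ^ c`), and let `a s > 1`. For all real `ξ` but a
set of Hausdorff dimension at most `(2 (1 - s) + 2 / a + τ) / (1 - κ)`, for every `ε > 0` and all large `n`, all squarefree
`d` in the `n`-th window are `Good P a ((1 - s) / 2 + 1 / (2 a) + ε)`.

(2) If `s = 1` and `τ = 0` (for example `w_n = 2 ^ n`): for all real `ξ` but a set of dimension zero, for all `κ < 1` and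
`ε > 0` there is `a` such that for all large `n` all squarefree `d` in the `n`-th window are `Good P a ε`.

(3) The same for the windows `|d - ξ α ^ (w_n)| ≤ α ^ (κ w_n)`, with `w_n / log n → ∞`, for all `ξ ≠ 0` in a countable set, for
all `α > 1` but a set of dimension zero.

Proof. The cubes of the theory of the Hausdorff measure are the intervals of the `ξ` for which the `n`-th window contains a
given exceptional `d`; the number of the exceptional `d ≤ x` is bounded in the starting result SparseSetsOfPrimes.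
-/

set_option autoImplicit false

namespace Pool.Agent.Results.MP_d0fd9b_nt.MetricSmallPrimes

open Filter Finset NumberField Pool.Agent.U265.GM

/-- The prime numbers of the set `P` in the interval `(y, 2y]`. -/
noncomputable def primesIn (P : Set ℕ) (y : ℕ) : Set ℕ := {p | y < p ∧ p ≤ 2 * y ∧ p.Prime ∧ p ∈ P}

/-- For every `σ < s` and all large `y` the set `P` contains at least `y ^ σ` primes of `(y, 2y]`. -/
def HasExponent (P : Set ℕ) (s : ℝ) : Prop :=
  ∀ σ : ℝ, σ < s → ∃ y0 : ℕ, ∀ y ≥ y0, (y : ℝ) ^ σ ≤ (primesIn P y).ncard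

/-- The nonzero prime ideals of `K` whose norm is a prime number of `P` and at most `B`. -/
def smallPrimes (P : Set ℕ) (K : Type) [Field K] [NumberField K] (B : ℝ) :
    Set (nonZeroDivisors (Ideal (𝓞 K))) :=
  {𝔭 | (𝔭 : Ideal (𝓞 K)).IsPrime ∧ (Ideal.absNorm (𝔭 : Ideal (𝓞 K))).Prime ∧
    Ideal.absNorm (𝔭 : Ideal (𝓞 K)) ∈ P ∧ (Ideal.absNorm (𝔭 : Ideal (𝓞 K)) : ℝ) ≤ B}

/-- The ideal classes that are products of at most `n` classes of these prime ideals. -/
def Reach (P : Set ℕ) (K : Type) [Field K] [NumberField K] (B n : ℝ) : Set (ClassGroup (𝓞 K)) :=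
  {C | ∃ L : Multiset (nonZeroDivisors (Ideal (𝓞 K))), (∀ 𝔭 ∈ L, 𝔭 ∈ smallPrimes P K B) ∧
    (L.card : ℝ) ≤ n ∧ (L.map (fun 𝔭 => ClassGroup.mk0 𝔭)).prod = C}

/-- The subgroup of the class group generated by the classes of these prime ideals. -/
noncomputable def Gen (P : Set ℕ) (K : Type) [Field K] [NumberField K] (B : ℝ) :
    Subgroup (ClassGroup (𝓞 K)) :=
  Subgroup.closure ((fun 𝔭 => ClassGroup.mk0 𝔭) '' smallPrimes P K B)

/-- For every quadratic field `K` containing a square root of `d`, with class number `h`: at least `h / d ^ e` classes are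
products of at most `log d / log log d` classes of prime ideals of norm in `P` and at most `(log d) ^ a`, the subgroup
generated by them has index at most `d ^ e`, and `h ≤ d ^ e` if they are all principal. -/
def Good (P : Set ℕ) (a e : ℝ) (d : ℕ) : Prop :=
  ∀ (K : Type) [Field K] [NumberField K], Module.finrank ℚ K = 2 → (∃ x : K, x ^ 2 = (d : K)) →
    (classNumber K : ℝ) ≤ (d : ℝ) ^ e *
      ((Reach P K ((Real.log d) ^ a) (Real.log d / Real.log (Real.log d))).ncard : ℝ) ∧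
    ((Gen P K ((Real.log d) ^ a)).index : ℝ) ≤ (d : ℝ) ^ e ∧
    ((∀ 𝔭 ∈ smallPrimes P K ((Real.log d) ^ a), (𝔭 : Ideal (𝓞 K)).IsPrincipal) →
      (classNumber K : ℝ) ≤ (d : ℝ) ^ e)

/-- For all large `n` ALL squarefree integers `d ≥ 2` with `|d - x_n| ≤ W_n ^ κ` have the property `G`. -/
def Near (κ : ℝ) (W x : ℕ → ℝ) (G : ℕ → Prop) : Prop :=
  ∀ᶠ n : ℕ in atTop, ∀ d : ℕ, Squarefree d → 2 ≤ d → |(d : ℝ) - x n| ≤ W n ^ κ → G d

open Pool.Agent.Results.MP_d0fd9b_nt

theorem good_iff (P : Set ℕ) (a e : ℝ) (d : ℕ) : Good P a e d ↔ SparseSetsOfPrimes.Good P a e d := Iff.rfl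

theorem exponent_of {P : Set ℕ} {s : ℝ} (h : HasExponent P s) : SparseSetsOfPrimes.HasExponent P s := by
  classical
  intro σ hσ
  obtain ⟨y0, h0⟩ := h σ hσ
  refine ⟨y0, fun y hy => (h0 y hy).trans (le_of_eq ?_)⟩
  have : primesIn P y = ((SparseSetsOfPrimes.primesIn P y : Finset ℕ) : Set ℕ) := by
    ext p
    unfold primesIn SparseSetsOfPrimes.primesIn
    rw [Finset.mem_coe, Finset.mem_filter, Finset.mem_Ioc]
    constructor
    · rintro ⟨h1, h2, h3⟩
      exact ⟨⟨h1, h2⟩, h3⟩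
    · rintro ⟨⟨h1, h2⟩, h3⟩
      exact ⟨h1, h2, h3⟩
  rw [this, Set.ncard_coe_finset]

theorem good_mono {P : Set ℕ} {a e e' : ℝ} {d : ℕ} (hd : 2 ≤ d) (he : e ≤ e') (h : Good P a e d) : Good P a e' d := by
  intro K _ _ hK hx
  obtain ⟨h1, h2, h3⟩ := h K hK hx
  have h4 : (d : ℝ) ^ e ≤ (d : ℝ) ^ e' :=
    Real.rpow_le_rpow_of_exponent_le (by exact_mod_cast (by omega : 1 ≤ d)) he
  exact ⟨h1.trans (mul_le_mul_of_nonneg_right h4 (Nat.cast_nonneg _)), h2.trans h4, fun h => (h3 h).trans h4⟩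

/-- the integers with the property -/
def GS (P : Set ℕ) (a e : ℝ) : Set (Fin 1 → ℤ) :=
  {m | ∀ d : ℕ, (d : ℤ) = m 0 → Squarefree d → 2 ≤ d → Good P a e d}

theorem near_iff (P : Set ℕ) (a e κ : ℝ) (W x : ℕ → ℝ) :
    Near κ W x (Good P a e) ↔ ¬ Hit (GS P a e)ᶜ κ W (fun n _ => x n) := by
  unfold Near Hit
  rw [not_frequently]
  refine eventually_congr (Eventually.of_forall fun n => ?_)
  constructor
  · rintro h ⟨m, h1, h2⟩
    apply h2
    intro d hd hs h3
    refine h d hs h3 ?_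
    have h4 := h1 0
    rw [← hd] at h4
    exact_mod_cast h4
  · intro h d hs h2 h3
    by_contra hcon
    apply h
    refine ⟨fun _ => (d : ℤ), fun _ => by exact_mod_cast h3, fun hG => hcon (hG d rfl hs h2)⟩

theorem sparse_of {P : Set ℕ} {a e C f : ℝ}
    (h : SparseSetsOfPrimes.AllBut C f (SparseSetsOfPrimes.Good P a e)) (X : ℕ) (T : Finset (Fin 1 → ℤ))
    (hT : ∀ d ∈ T, d ∈ (GS P a e)ᶜ ∧ ∀ i, |d i| ≤ X) : (T.card : ℝ) ≤ C * (X : ℝ) ^ f := by
  classical
  refine le_trans ?_ (h X)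
  have key : ∀ m ∈ T, ∃ d : ℕ, (d : ℤ) = m 0 ∧ (Squarefree d ∧ 2 ≤ d ∧ ¬ Good P a e d) ∧ d ≤ X := by
    intro m hm
    obtain ⟨h2, h3⟩ := hT m hm
    by_contra hcon
    apply h2
    intro d a1 a2 a3
    by_contra h4
    refine hcon ⟨d, a1, ⟨a2, a3, h4⟩, ?_⟩
    have h5 := h3 0
    rw [← a1] at h5
    have h6 : |((d : ℕ) : ℤ)| = d := abs_of_nonneg (Int.natCast_nonneg d)
    omega
  have h1 : T.card ≤ ((Finset.Icc 2 X).filter (fun d => Squarefree d ∧ ¬ SparseSetsOfPrimes.Good P a e d)).card := by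
    refine card_le_card_of_injOn (fun m => (m 0).toNat) ?_ ?_
    · intro m hm
      obtain ⟨d, hd, ⟨h5, h6, h7⟩, h8⟩ := key m hm
      have h9 : (m 0).toNat = d := by omega
      rw [mem_coe, mem_filter, mem_Icc]
      simp only [h9]
      exact ⟨⟨h6, h8⟩, h5, h7⟩
    · intro m hm m' hm' heq
      obtain ⟨d, hd, -⟩ := key m hm
      obtain ⟨d', hd', -⟩ := key m' hm'
      have h9 : m 0 = m' 0 := by
        have : (m 0).toNat = (m' 0).toNat := heq
        omega
      funext i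
      rw [Subsingleton.elim i 0]
      exact h9
  exact_mod_cast h1

theorem gs_mono {P : Set ℕ} {a e e' : ℝ} (he : e ≤ e') : GS P a e ⊆ GS P a e' :=
  fun _ hm d h1 h2 h3 => good_mono h3 he (hm d h1 h2 h3)

theorem sparse_main {P : Set ℕ} {s a : ℝ} (hs0 : 0 < s) (hs1 : s ≤ 1) (hP : HasExponent P s) (ha : 1 < a * s)
    {ε : ℝ} (hε : 0 < ε) : Sparse (GS P a ((1 - s) / 2 + 1 / (2 * a) + ε))ᶜ (2 * (1 - s) + 2 / a) := by
  intro e he
  obtain ⟨C, -, h, -⟩ := SparseSetsOfPrimes.result P s hs0 hs1 (exponent_of hP) a (min ε e) ha (lt_min hε he)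
  have ha0 : 0 < a := by
    by_contra h
    push Not at h
    nlinarith
  refine ⟨max C 0, fun X hX T hT => ?_⟩
  have hX1 : (1 : ℝ) ≤ X := by exact_mod_cast hX
  have h1 : (T.card : ℝ) ≤ C * (X : ℝ) ^ (2 * (1 - s) + 2 / a + min ε e) := by
    refine sparse_of h X T fun d hd => ⟨fun hcon => (hT d hd).1 (gs_mono ?_ hcon), (hT d hd).2⟩
    have := min_le_left ε e
    linarith
  refine h1.trans ?_
  calc C * (X : ℝ) ^ (2 * (1 - s) + 2 / a + min ε e)
      ≤ max C 0 * (X : ℝ) ^ (2 * (1 - s) + 2 / a + min ε e) :=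
        mul_le_mul_of_nonneg_right (le_max_left _ _) (Real.rpow_nonneg (by linarith) _)
    _ ≤ max C 0 * (X : ℝ) ^ (2 * (1 - s) + 2 / a + e) := by
        refine mul_le_mul_of_nonneg_left (Real.rpow_le_rpow_of_exponent_le hX1 ?_) (le_max_right _ _)
        have := min_le_right ε e
        linarith

/-- the windows for all exponents -/
theorem zero_cond {P : Set ℕ} (hP : HasExponent P 1) (ε : ℝ) (hε : 0 < ε) (s : ℝ) (hs : 0 < s) :
    ∃ a : ℝ, Sparse (GS P a ε)ᶜ s := by
  obtain ⟨a, ha1, ha2, ha3⟩ : ∃ a : ℝ, 1 < a ∧ 2 / a ≤ s ∧ 1 / (2 * a) < ε := by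
    refine ⟨2 + 2 / s + 1 / ε, ?_, ?_, ?_⟩
    · have : 0 < 2 / s := by positivity
      have : 0 < 1 / ε := by positivity
      linarith
    · rw [div_le_iff₀ (by positivity)]
      have h1 : s * (2 / s) = 2 := by field_simp
      have h2 : 0 < s * (1 / ε) := by positivity
      nlinarith
    · rw [div_lt_iff₀ (by positivity)]
      have h1 : ε * (1 / ε) = 1 := by field_simp
      have h2 : 0 < ε * (2 / s) := by positivity
      nlinarith
  refine ⟨a, fun e he => ?_⟩
  obtain ⟨K, hK⟩ := sparse_main one_pos le_rfl hP (a := a) (by linarith) (ε := ε - 1 / (2 * a)) (by linarith) e he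
  have e1 : (1 - 1) / 2 + 1 / (2 * a) + (ε - 1 / (2 * a)) = ε := by ring
  rw [e1] at hK
  refine ⟨max K 0, fun X hX T hT => ?_⟩
  have hX1 : (1 : ℝ) ≤ X := by exact_mod_cast hX
  refine (hK X hX T hT).trans ?_
  calc K * (X : ℝ) ^ (2 * (1 - 1) + 2 / a + e) ≤ max K 0 * (X : ℝ) ^ (2 * (1 - 1) + 2 / a + e) :=
        mul_le_mul_of_nonneg_right (le_max_left _ _) (Real.rpow_nonneg (by linarith) _)
    _ ≤ max K 0 * (X : ℝ) ^ (s + e) := by
        refine mul_le_mul_of_nonneg_left (Real.rpow_le_rpow_of_exponent_le hX1 ?_) (le_max_right _ _)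
        linarith

/-- all primes -/
theorem exponent_univ : HasExponent Set.univ 1 := by
  intro σ hσ
  obtain ⟨η, h0, h1, h2⟩ : ∃ η : ℝ, 0 < η ∧ η < 1 ∧ σ < 1 - η := by
    refine ⟨min ((1 - σ) / 2) (1 / 2), lt_min (by linarith) (by norm_num), lt_of_le_of_lt (min_le_right _ _) (by norm_num), ?_⟩
    have := min_le_left ((1 - σ) / 2) (1 / 2)
    linarith
  have h3 := (tendsto_natCast_atTop_atTop (R := ℝ)).eventually (Pool.Agent.H170R2.PC.dyadic_primes h0 h1.le)
  have h4 : ∀ᶠ y : ℕ in atTop, (y : ℝ) ^ σ + 1 ≤ (y : ℝ) ^ (1 - η) := by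
    have h5 : Tendsto (fun y : ℕ => (y : ℝ) ^ (1 - η - σ)) atTop atTop :=
      (tendsto_rpow_atTop (by linarith)).comp tendsto_natCast_atTop_atTop
    have h6 : ∀ᶠ y : ℕ in atTop, (1 : ℝ) ≤ (y : ℝ) ^ (1 - η) / 2 := by
      have h8 : Tendsto (fun y : ℕ => (y : ℝ) ^ (1 - η)) atTop atTop :=
        (tendsto_rpow_atTop (by linarith)).comp tendsto_natCast_atTop_atTop
      filter_upwards [h8.eventually_ge_atTop 2] with y hy
      linarith
    filter_upwards [h5.eventually_ge_atTop 2, h6, eventually_ge_atTop 1] with y a1 a2 a3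
    have a4 : (1 : ℝ) ≤ y := by exact_mod_cast a3
    have a5 : (y : ℝ) ^ (1 - η) = (y : ℝ) ^ σ * (y : ℝ) ^ (1 - η - σ) := by
      rw [← Real.rpow_add (by linarith)]
      congr 1
      ring
    have a6 : 0 < (y : ℝ) ^ σ := Real.rpow_pos_of_pos (by linarith) _
    nlinarith
  obtain ⟨y0, hy0⟩ := eventually_atTop.1 (h3.and h4)
  refine ⟨y0, fun y hy => ?_⟩
  obtain ⟨b1, b2⟩ := hy0 y hy
  classical
  set D : Finset ℕ := insert y ((Finset.Ioc y (2 * y)).filter Nat.Prime) with hD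
  have b3 := b1 D (by
    intro p hp h5 h6
    rw [hD, mem_insert, mem_filter, mem_Ioc]
    have h7 : y ≤ p := by exact_mod_cast h5
    have h8 : p < 2 * y := by exact_mod_cast h6
    rcases h7.eq_or_lt with h9 | h9
    · exact Or.inl h9.symm
    · exact Or.inr ⟨⟨h9, h8.le⟩, hp⟩)
  have b4 : (primesIn Set.univ y).ncard = ((Finset.Ioc y (2 * y)).filter Nat.Prime).card := by
    have : primesIn Set.univ y = (((Finset.Ioc y (2 * y)).filter Nat.Prime : Finset ℕ) : Set ℕ) := by
      ext p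
      unfold primesIn
      rw [Finset.mem_coe, Finset.mem_filter, Finset.mem_Ioc]
      constructor
      · rintro ⟨c1, c2, c3, -⟩
        exact ⟨⟨c1, c2⟩, c3⟩
      · rintro ⟨⟨c1, c2⟩, c3⟩
        exact ⟨c1, c2, c3, Set.mem_univ _⟩
    rw [this, Set.ncard_coe_finset]
  have b5 : (D.card : ℝ) ≤ ((Finset.Ioc y (2 * y)).filter Nat.Prime).card + 1 := by
    exact_mod_cast card_insert_le _ _
  rw [b4]
  linarith

theorem result :
    HasExponent Set.univ 1 ∧
    (∀ (P : Set ℕ) (s a κ τ : ℝ), 0 < s → s ≤ 1 → HasExponent P s → 1 < a * s → κ < 1 → 0 ≤ τ →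
      ∀ w : ℕ → ℝ, (∀ n, 1 ≤ w n) → (∀ t : ℝ, τ < t → Summable fun n => w n ^ (-t)) →
      dimH {ξ : ℝ | ¬ ∀ ε : ℝ, 0 < ε → Near κ w (fun n => w n * ξ) (Good P a ((1 - s) / 2 + 1 / (2 * a) + ε))} ≤
        ENNReal.ofReal ((2 * (1 - s) + 2 / a + τ) / (1 - κ))) ∧
    (∀ P : Set ℕ, HasExponent P 1 →
      ∀ w : ℕ → ℝ, (∀ n, 1 ≤ w n) → (∀ t : ℝ, 0 < t → Summable fun n => w n ^ (-t)) →
      dimH {ξ : ℝ | ¬ ∀ κ : ℝ, κ < 1 → ∀ ε : ℝ, 0 < ε → ∃ a : ℝ, Near κ w (fun n => w n * ξ) (Good P a ε)} = 0) ∧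
    (∀ P : Set ℕ, HasExponent P 1 → ∀ (Ξ : Set ℝ) (w : ℕ → ℝ), Ξ.Countable → (∀ ξ ∈ Ξ, ξ ≠ 0) → (∀ n, 1 ≤ w n) →
      Tendsto (fun n : ℕ => w n / Real.log n) atTop atTop →
      dimH {α : ℝ | 1 < α ∧ ¬ ∀ ξ ∈ Ξ, ∀ κ : ℝ, κ < 1 → ∀ ε : ℝ, 0 < ε → ∃ a : ℝ,
        Near κ (fun n => α ^ w n) (fun n => ξ * α ^ w n) (Good P a ε)} = 0) := by
  refine ⟨exponent_univ, ?_, ?_, ?_⟩
  · intro P s a κ τ hs0 hs1 hP ha hκ hτ w hw hsum
    have ha0 : 0 < a := by
      by_contra h
      push Not at h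
      nlinarith
    have hsub : {ξ : ℝ | ¬ ∀ ε : ℝ, 0 < ε → Near κ w (fun n => w n * ξ) (Good P a ((1 - s) / 2 + 1 / (2 * a) + ε))} ⊆
        ⋃ i : ℕ, {ξ : ℝ | Hit (GS P a ((1 - s) / 2 + 1 / (2 * a) + 1 / ((i : ℝ) + 1)))ᶜ κ w (fun n _ => w n * ξ)} := by
      intro ξ hξ
      rw [Set.mem_ofPred_eq] at hξ
      push Not at hξ
      obtain ⟨ε, hε, hξ⟩ := hξ
      obtain ⟨i, hi⟩ := exists_eps ε hε
      rw [near_iff, not_not] at hξ
      rw [Set.mem_iUnion]
      refine ⟨i, Frequently.mono hξ ?_⟩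
      rintro n ⟨m, hm1, hm2⟩
      exact ⟨m, hm1, fun h => hm2 (gs_mono (by linarith) h)⟩
    refine (dimH_mono hsub).trans ?_
    rw [dimH_iUnion]
    refine iSup_le fun i => ?_
    have h2a : 0 < 2 / a := by positivity
    exact gen_dil_one _ (by linarith) (sparse_main hs0 hs1 hP ha (by positivity)) hκ hτ w hw hsum
  · intro P hP w hw hsum
    have h1 := zero_dil (fun ε a => GS P a ε) (zero_cond hP) (fun ε ε' a h => gs_mono h) w hw hsum
    simp only [near_iff]
    exact h1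
  · intro P hP Ξ w hΞ hΞ0 hw hlim
    have h1 := zero_pow (fun ε a => GS P a ε) (zero_cond hP) (fun ε ε' a h => gs_mono h) Ξ hΞ hΞ0 w hw hlim
    simp only [near_iff]
    exact h1

end Pool.Agent.Results.MP_d0fd9b_nt.MetricSmallPrimes
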