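import Pool.Agent.U449.BV.Q
import Pool.Agent.Results.MP_d0fd9b_nt.LargeGenerators

/-!
# Large units and generators in the fields `ℚ(√p)`, `p` near the values of polynomials on arbitrary sets

Let `A ≥ 1`, let `x` be large (`A ^ 2 log log x ≤ 10 ^ (-4) log x`), and `x ^ (1 / (60 A ^ 2)) ≤ H ≤ x`, so the interval `(x, x + H]` may be very short.
Let `S`, `T` be ARBITRARY finite sets, and let `F` be ANY function of two variables on `S × T` with few coincidences (`Rare`), bounded by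
`2 x`: for example `x` plus the least residue of `f(a, b) + g(a) + h(b)` modulo a prime `l ≤ H`, `S` and `T` arbitrary sets of residues, `f` any
polynomial modulo `l` with a monomial which contains both variables, and `g`, `h` arbitrary functions. For all but `Θ |S| |T|` of the pairs
`(a, b)` in `S × T`, where `Θ ^ 2 = 56 d H x ^ (-1 / (1000 A ^ 2)) (1 / |S| + W / |T|)`, ALL primes `p` in `(x, x + H]` with `|p - F(a, b)| ≤ W` are such
that every algebraic integer of `ℚ(√p)`, not in `ℤ`, whose norm is at most `x ^ (1 / (1000 A ^ 2))` in absolute value (units, generators of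
principal ideals of small norm) has a conjugate larger than `x ^ A`. So the regulators of these fields are larger than `A log x`. The same holds for the squarefree integers, for the algebraic integers whose norm is not a square.

Since the sets and the functions `g` and `h` are arbitrary, the values have no arithmetic structure, and a value can be taken by very many
pairs. So the number of the exceptions does not give the result directly. Proof: the inequality of Cauchy and Schwarz; for most pairs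
`a, a'` the difference `F(a, b) - F(a', b)` is small for few `b` (`Pool.Agent.U449.BV`).
-/

set_option autoImplicit false

namespace Pool.Agent.Results.MP_d0fd9b_nt.MixedPolynomials

open Pool.Agent.U449.BV (Rare dense_window polys residues)
open Pool.Agent.Results.MP_d0fd9b_nt.LargeGenerators (Large LargeNS)

/-- `n` is a prime such that every algebraic integer of `ℚ(√n)` outside `ℤ` of norm at most `M` has a conjugate larger than `L`
(`Large`), or not a prime; the same for `n` squarefree and the algebraic integers whose norm is not a square (`LargeNS`). -/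
def Good (M L : ℝ) (n : ℕ) : Prop := (n.Prime → Large n M L) ∧ (Squarefree n → LargeNS n M L)

/-- ALL integers `n` in `(x, x + H]` with `|n - v| ≤ W` are good (primes: `Large`, squarefree integers: `LargeNS`). -/
def Near (x H M L W v : ℝ) : Prop := ∀ n : ℕ, x < n → (n : ℝ) ≤ x + H → |(n : ℝ) - v| ≤ W → Good M L n

/-- the least residues, shifted by a constant -/
lemma shifted (p : ℕ) [Fact p.Prime] (d : ℕ) (f : MvPolynomial (Fin 2) (ZMod p)) (hd : f.totalDegree ≤ d)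
    (hf : ∃ m ∈ f.support, m 0 ≠ 0 ∧ m 1 ≠ 0) (g h : ZMod p → ZMod p) (A B : Finset (ZMod p)) (y : ℝ) :
    Rare d A B (fun a b => y + (((MvPolynomial.eval ![a, b] f + g a + h b).val : ℕ) : ℝ)) := by
  have h1 := residues p d f hd hf g h A B
  intro a ha
  simpa only [add_sub_add_left_eq_sub] using h1 a ha

/-- **Theorem.** (1) Let `A ≥ 1`, `x` large, `x ^ (1 / (60 A ^ 2)) ≤ H ≤ x`, `1 ≤ W ≤ 2 x`. The property `Near` holds for all but `Θ |S| |T|` of the
pairs in `S × T`, `Θ ^ 2 = 56 d H x ^ (-1 / (1000 A ^ 2)) (1 / |S| + W / |T|)`, for ARBITRARY finite sets `S`, `T` and ALL functions `F` on `S × T`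
with `|F| ≤ 2 x` and few coincidences. (2) Coincidences are rare for `f(a, b) + g(a) + h(b)`, where `f` is any
integer polynomial with a monomial which contains both variables, and `g` and `h` are arbitrary real functions, on arbitrary
finite sets of integers. (3) The same is true of `y` plus the least residues of `f(a, b) + g(a) + h(b)` modulo a prime. -/
theorem result :
    (∃ x₀ : ℝ, ∀ x A H : ℝ, x₀ ≤ x → 1 ≤ A → A ^ 2 * Real.log (Real.log x) ≤ Real.log x / 10 ^ 4 →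
      x ^ (1 / (60 * A ^ 2)) ≤ H → H ≤ x → ∀ (d : ℕ) (W : ℝ), 1 ≤ W → W ≤ 2 * x →
      ∀ (α β : Type) (S : Finset α) (T : Finset β) (F : α → β → ℝ), (∀ a ∈ S, ∀ b ∈ T, |F a b| ≤ 2 * x) → Rare d S T F →
        ({z : α × β | z.1 ∈ S ∧ z.2 ∈ T ∧
          ¬ Near x H (x ^ (1 / (1000 * A ^ 2))) (x ^ A) W (F z.1 z.2)}.ncard : ℝ) ^ 2 ≤
          56 * d * (H / x ^ (1 / (1000 * A ^ 2))) * (1 / S.card + W / T.card) * ((S.card : ℝ) * T.card) ^ 2) ∧
    (∀ (d : ℕ) (f : MvPolynomial (Fin 2) ℤ), f.totalDegree ≤ d → (∃ m ∈ f.support, m 0 ≠ 0 ∧ m 1 ≠ 0) →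
      ∀ (g h : ℤ → ℝ) (A B : Finset ℤ),
        Rare d A B (fun a b => ((MvPolynomial.eval ![a, b] f : ℤ) : ℝ) + g a + h b)) ∧
    ∀ (p : ℕ) [Fact p.Prime] (d : ℕ) (f : MvPolynomial (Fin 2) (ZMod p)), f.totalDegree ≤ d →
      (∃ m ∈ f.support, m 0 ≠ 0 ∧ m 1 ≠ 0) → ∀ (g h : ZMod p → ZMod p) (A B : Finset (ZMod p)) (y : ℝ),
        Rare d A B (fun a b => y + (((MvPolynomial.eval ![a, b] f + g a + h b).val : ℕ) : ℝ)) := by
  refine ⟨?_, polys, fun p _ d f hd hf g h A B y => shifted p d f hd hf g h A B y⟩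
  obtain ⟨x₀, hx₀⟩ := LargeGenerators.result
  refine ⟨max x₀ 1, fun x A H hx hA hAx hH1 hH2 d W hW hWx α β S T F hF hR => ?_⟩
  have hx1 : 1 ≤ x := (le_max_right _ _).trans hx
  obtain ⟨h1, h2⟩ := hx₀ x A H ((le_max_left _ _).trans hx) hA hAx hH1 hH2
  obtain ⟨M, hM⟩ : ∃ M, M = x ^ (1 / (1000 * A ^ 2)) := ⟨_, rfl⟩
  rw [← hM] at h1 h2 ⊢
  have hfin : ∀ P : ℕ → Prop, {n : ℕ | P n ∧ x < n ∧ (n : ℝ) ≤ x + H}.Finite := by
    intro P
    refine (Set.finite_Iic ⌊x + H⌋₊).subset ?_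
    rintro n ⟨-, -, h⟩
    exact Nat.le_floor h
  have hsub : {n : ℕ | x < n ∧ (n : ℝ) ≤ x + H ∧ ¬ Good M (x ^ A) n} ⊆
      {p : ℕ | p.Prime ∧ x < p ∧ (p : ℝ) ≤ x + H ∧ ¬ Large p M (x ^ A)} ∪
      {e : ℕ | Squarefree e ∧ x < e ∧ (e : ℝ) ≤ x + H ∧ ¬ LargeNS e M (x ^ A)} := by
    rintro n ⟨h3, h4, h5⟩
    unfold Good at h5
    rw [not_and_or] at h5
    rcases h5 with h5 | h5
    · rw [Classical.not_imp] at h5
      exact Or.inl ⟨h5.1, h3, h4, h5.2⟩
    · rw [Classical.not_imp] at h5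
      exact Or.inr ⟨h5.1, h3, h4, h5.2⟩
  have hf1 : {p : ℕ | p.Prime ∧ x < p ∧ (p : ℝ) ≤ x + H ∧ ¬ Large p M (x ^ A)}.Finite :=
    (hfin (fun _ => True)).subset fun p hp => ⟨trivial, hp.2.1, hp.2.2.1⟩
  have hf2 : {e : ℕ | Squarefree e ∧ x < e ∧ (e : ℝ) ≤ x + H ∧ ¬ LargeNS e M (x ^ A)}.Finite :=
    (hfin (fun _ => True)).subset fun p hp => ⟨trivial, hp.2.1, hp.2.2.1⟩
  have hcard : ({n : ℕ | x < n ∧ (n : ℝ) ≤ x + H ∧ ¬ Good M (x ^ A) n}.ncard : ℝ) ≤ 2 * (H / M) := by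
    have h6 := (Set.ncard_le_ncard hsub (hf1.union hf2)).trans (Set.ncard_union_le _ _)
    have h7 : ({n : ℕ | x < n ∧ (n : ℝ) ≤ x + H ∧ ¬ Good M (x ^ A) n}.ncard : ℝ) ≤
        ({p : ℕ | p.Prime ∧ x < p ∧ (p : ℝ) ≤ x + H ∧ ¬ Large p M (x ^ A)}.ncard : ℝ) +
        ({e : ℕ | Squarefree e ∧ x < e ∧ (e : ℝ) ≤ x + H ∧ ¬ LargeNS e M (x ^ A)}.ncard : ℝ) := by
      exact_mod_cast h6
    linarith
  have hfs : {n : ℕ | x < n ∧ (n : ℝ) ≤ x + H ∧ ¬ Good M (x ^ A) n}.Finite := (hf1.union hf2).subset hsub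
  have hsub2 : {t : ℕ | t ∈ {n : ℕ | x < n ∧ (n : ℝ) ≤ x + H ∧ ¬ Good M (x ^ A) n} ∧ ((t : ℕ) : ℝ) ≤ 2 * (2 * x)} ⊆
      {n : ℕ | x < n ∧ (n : ℝ) ≤ x + H ∧ ¬ Good M (x ^ A) n} := fun t ht => ht.1
  have h8 := dense_window (T := ℕ) (α := α) (β := β) (fun n => (n : ℝ))
    {n : ℕ | x < n ∧ (n : ℝ) ≤ x + H ∧ ¬ Good M (x ^ A) n} (Y := 2 * x) (W := W) hW hWx (2 * (H / M))
    ⟨hfs.subset hsub2, le_trans (by exact_mod_cast Set.ncard_le_ncard hsub2 hfs) hcard⟩ (d := d) (A := S) (B := T)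
    (F := F) hF hR
  have h9 : ({z : α × β | z.1 ∈ S ∧ z.2 ∈ T ∧ ¬ Near x H M (x ^ A) W (F z.1 z.2)}.ncard : ℝ) ≤
      ({z : α × β | z.1 ∈ S ∧ z.2 ∈ T ∧
        ∃ t ∈ {n : ℕ | x < n ∧ (n : ℝ) ≤ x + H ∧ ¬ Good M (x ^ A) n}, |((t : ℕ) : ℝ) - F z.1 z.2| ≤ W}.ncard : ℝ) := by
    refine Nat.cast_le.2 (Set.ncard_le_ncard ?_ ?_)
    · rintro z ⟨hz1, hz2, hz3⟩
      unfold Near at hz3
      push Not at hz3
      obtain ⟨n, hn1, hn2, hn3, hn4⟩ := hz3
      exact ⟨hz1, hz2, n, ⟨hn1, hn2, hn4⟩, hn3⟩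
    · apply (S ×ˢ T).finite_toSet.subset
      rintro z ⟨hz1, hz2, -⟩
      rw [Finset.mem_coe, Finset.mem_product]
      exact ⟨hz1, hz2⟩
  refine (pow_le_pow_left₀ (Nat.cast_nonneg _) h9 2).trans (h8.trans (le_of_eq ?_))
  ring

end Pool.Agent.Results.MP_d0fd9b_nt.MixedPolynomials
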